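import Pool.Agent.helper62.CSS.SpecE

/-!
# css:ESK (MP_70a088_an, class S): almost every point of the support is in all levels
-/

set_option autoImplicit false

open Complex Metric Set Filter Topology MeasureTheory
open Pool.Agent.helper98.ILF
open HY (UD T S hd UN RM)
open PM (DD rm cx pd cr hdf)

noncomputable section

namespace CSS

theorem ESK_back (hIF : IFC_stmt) (f : SE) (R : ℝ) (h : ∀ z, f.eval z ∈ VR f R → z ∈ VR f R) :
    ∀ (j : ℕ) (w : ℂ), it f j w ∈ VR f R → w ∈ VR f R := by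
  obtain ⟨-, h0, -, -, hs, -⟩ := hIF f
  intro j
  induction j with
  | zero => intro w hw; rwa [h0] at hw
  | succ j ih => intro w hw; exact h w (ih _ (by rwa [hs] at hw))

theorem ESK (hIF : IFC_stmt) (hRA : RAX_stmt) (hLV : LVS_stmt) (hES : ESI_stmt) : ESK_stmt := by
  intro f
  obtain ⟨R₁, hR₁, hE⟩ := hES f
  obtain ⟨R₀, -, hR₀⟩ := hRA f
  refine ⟨max R₁ R₀, lt_of_lt_of_le hR₁ (le_max_left _ _), fun R hR => ?_⟩
  have hRA' : RA f R := hR₀ R ((le_max_right _ _).trans hR)
  refine ⟨hRA', fun μ hμ => ?_⟩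
  obtain ⟨-, hball, -, hback, -⟩ := hLV f R hRA'
  obtain ⟨-, -, -, -, -, hadd, -⟩ := hIF f
  filter_upwards [hE μ hμ] with z hz hz0 k
  obtain ⟨n, hn, hlt⟩ := hz hz0 k
  have h1 : it f n z ∈ VR f R := hball (by
    rw [mem_ball_zero_iff]; exact lt_of_lt_of_le hlt ((le_max_left _ _).trans hR))
  have h2 : it f (n - k) (it f k z) ∈ VR f R := by
    rw [← hadd]; rwa [Nat.sub_add_cancel hn]
  exact ESK_back hIF f R hback (n - k) (it f k z) h2

end CSS
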